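import Pool.Agent.Q192.FL.AsmS
import Pool.Agent.Q192.FL.AsmP

/-!
# Separation and spanning growth rates of a smooth flow need not be limits

There is a smooth flow `φ` on the 3-torus (a compact 3-manifold) such that

* for some metric `D` inducing the topology and some `ε > 0`, the lower growth rate of the
  separation numbers `sep(M, ε, D_T)` is strictly smaller than the upper growth rate;
* for some metric `D` inducing the topology and some `ε > 0`, the lower growth rate of the
  spanning numbers `span(M, ε, D_T)` is strictly smaller than the upper growth rate.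

So the answers to Q1 and to Q2 are both negative.  The definitions (`T3`, `I3`, `IsSmoothFlow`,
`IsCompatibleMetric`, `bowen` which is `D_T`, `IsSepSet`, `sepNum`, `IsSpanSet`, `spanNum`) are in
`Pool.Agent.Q192.FL.Met`, `Pool.Agent.Q192.FL.Flow` and `Pool.Agent.Q192.FL.Defs`.
-/

namespace Pool.Agent.Results.MP_a86bc9_an.LiminfBelowLimsup

open Pool.Agent.Q192.FL Filter

/-- Both equalities fail for a smooth flow on the 3-torus. The numbers `sepNum` are maxima of
bounded sets of natural numbers, and the numbers `spanNum` are minima of nonempty sets. -/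
theorem result : ∃ φ : ℝ → T3 → T3, IsSmoothFlow φ ∧
    (∃ (D : T3 → T3 → ℝ) (ε : ℝ), IsCompatibleMetric D ∧ 0 < ε ∧
      (∀ T : ℝ, 0 ≤ T → BddAbove {n : ℕ | ∃ E : Finset T3, IsSepSet (bowen φ D T) ε E ∧
        E.card = n}) ∧
      liminf (fun T : ℝ => ((Real.log (sepNum (bowen φ D T) ε) / T : ℝ) : EReal)) atTop <
        limsup (fun T : ℝ => ((Real.log (sepNum (bowen φ D T) ε) / T : ℝ) : EReal)) atTop) ∧
    (∃ (D : T3 → T3 → ℝ) (ε : ℝ), IsCompatibleMetric D ∧ 0 < ε ∧
      (∀ T : ℝ, 0 ≤ T → ∃ E : Finset T3, IsSpanSet (bowen φ D T) ε E) ∧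
      liminf (fun T : ℝ => ((Real.log (spanNum (bowen φ D T) ε) / T : ℝ) : EReal)) atTop <
        limsup (fun T : ℝ => ((Real.log (spanNum (bowen φ D T) ε) / T : ℝ) : EReal)) atTop) := by
  refine ⟨phi, isSmoothFlow_phi, ?_, ?_⟩
  · obtain ⟨D, hD, hb, h1, h2⟩ := sep_main
    refine ⟨D, 1, hD, one_pos, hb, ?_⟩
    refine h1.trans_lt (lt_of_lt_of_le ?_ h2)
    rw [EReal.coe_lt_coe_iff]
    norm_num
  · obtain ⟨D, hD, hb, h1, h2⟩ := span_main
    refine ⟨D, 1, hD, one_pos, hb, ?_⟩
    refine h1.trans_lt (lt_of_lt_of_le ?_ h2)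
    rw [EReal.coe_lt_coe_iff]
    norm_num

end Pool.Agent.Results.MP_a86bc9_an.LiminfBelowLimsup
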